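import Pool.Agent.Y817.ISO.Stm
import Pool.Agent.Helper270.WPA

/-!
Job ISO-MODEL (project ISO of helper817): the permutation model of the rules.
Adaptation of `Pool/Agent/Helper270/WP.lean` (there the lattice is `Bool → ℤ` and the maps are
multiplications by vectors).
-/

set_option autoImplicit false

namespace Pool.Agent.Y620.ISO

open Pool.Agent.Y817.ISO Pool.Agent.Helper270.WPA

section Model

variable {P J : Type}

theorem act_of (v : Multiplicative (J → ℤ)) (p : P) (n : J → ℤ) :
    act P J v (FreeGroup.of (p, n)) = FreeGroup.of (p, n - v.toAdd) := by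
  simp [act, tr]

/-- The subgroup of a rule. -/
def jj {d : ℕ} (p : P) (μ : (Fin d → ℤ) →+ (J → ℤ)) (a : J → ℤ) : G0 Unit (Fin d) →* G0 P J :=
  SemidirectProduct.map (FreeGroup.map (fun x : Unit × (Fin d → ℤ) => (p, μ x.2 + a)))
    (AddMonoidHom.toMultiplicative μ) (by
      intro v
      apply FreeGroup.ext_hom
      rintro ⟨⟨⟩, u⟩
      simp only [MonoidHom.comp_apply, MulEquiv.coe_toMonoidHom, act_of, FreeGroup.map.of]
      congr 2
      simp only [map_sub, AddMonoidHom.toMultiplicative_apply_apply, toAdd_ofAdd]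
      abel)

theorem jj_inl {d : ℕ} (p : P) (μ : (Fin d → ℤ) →+ (J → ℤ)) (a : J → ℤ) (u : Fin d → ℤ) :
    jj p μ a (SemidirectProduct.inl (FreeGroup.of ((), u))) =
      SemidirectProduct.inl (FreeGroup.of (p, μ u + a)) := by
  simp [jj]

theorem jj_inr {d : ℕ} (p : P) (μ : (Fin d → ℤ) →+ (J → ℤ)) (a : J → ℤ) (v : Fin d → ℤ) :
    jj p μ a (SemidirectProduct.inr (Multiplicative.ofAdd v)) =
      SemidirectProduct.inr (Multiplicative.ofAdd (μ v)) := by
  simp [jj]

theorem jj_injective {d : ℕ} (p : P) (μ : (Fin d → ℤ) →+ (J → ℤ)) (a : J → ℤ)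
    (hμ : Function.Injective μ) : Function.Injective (jj p μ a) := by
  intro x y hxy
  have h1 := congrArg SemidirectProduct.left hxy
  have h2 := congrArg SemidirectProduct.right hxy
  simp only [jj, SemidirectProduct.map_left, SemidirectProduct.map_right] at h1 h2
  have h3 : x.left = y.left := by
    refine FreeGroup.map_injective ?_ h1
    rintro ⟨⟨⟩, u⟩ ⟨⟨⟩, v⟩ huv
    have : u = v := hμ (add_right_cancel (Prod.mk.inj huv).2)
    rw [this]
  have h4 : x.right = y.right := hμ h2
  exact SemidirectProduct.ext h3 h4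

/-- Translations. -/
def trans (J : Type) : Multiplicative (J → ℤ) →* Equiv.Perm ((J → ℤ) × Bool) where
  toFun v := Equiv.prodCongr (Equiv.addRight v.toAdd) (Equiv.refl _)
  map_one' := by ext x <;> simp
  map_mul' v w := by
    apply Equiv.ext
    rintro ⟨u, ε⟩
    simp only [Equiv.prodCongr_apply, Equiv.coe_addRight, Prod.map_apply, Equiv.refl_apply,
      Equiv.Perm.mul_apply, toAdd_mul, Prod.mk.injEq, and_true]
    rw [add_assoc, add_comm w.toAdd]

theorem trans_apply (v : Multiplicative (J → ℤ)) (u : J → ℤ) (ε : Bool) :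
    trans J v (u, ε) = (u + v.toAdd, ε) := rfl

open Classical in
/-- Swap the sheets away from the set. -/
noncomputable def tog (C : P → (J → ℤ) → Prop) (x : P × (J → ℤ)) :
    Equiv.Perm ((J → ℤ) × Bool) :=
  Function.Involutive.toPerm (fun y => (y.1, if C x.1 (y.1 + x.2) then y.2 else !y.2)) (by
    rintro ⟨u, ε⟩
    simp only
    split_ifs <;> simp)

open Classical in
theorem tog_apply (C : P → (J → ℤ) → Prop) (p : P) (n u : J → ℤ) (ε : Bool) :
    tog C (p, n) (u, ε) = (u, if C p (u + n) then ε else !ε) := rfl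

/-- The action on two sheets. -/
noncomputable def act0 (C : P → (J → ℤ) → Prop) : G0 P J →* Equiv.Perm ((J → ℤ) × Bool) :=
  SemidirectProduct.lift (FreeGroup.lift (tog C)) (trans J) (by
    intro v
    apply FreeGroup.ext_hom
    rintro ⟨p, n⟩
    simp only [MonoidHom.comp_apply, MulEquiv.coe_toMonoidHom, act_of, FreeGroup.lift_apply_of,
      MulAut.conj_apply]
    apply Equiv.ext
    rintro ⟨u, ε⟩
    have h1 : (trans J v)⁻¹ (u, ε) = (u - v.toAdd, ε) := by
      rw [← map_inv, trans_apply, toAdd_inv, sub_eq_add_neg]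
    rw [Equiv.Perm.mul_apply, Equiv.Perm.mul_apply, h1, tog_apply, tog_apply, trans_apply]
    simp only [sub_add_cancel]
    rw [show u + (n - v.toAdd) = u - v.toAdd + n from by abel])

theorem act0_inr (C : P → (J → ℤ) → Prop) (v : Multiplicative (J → ℤ)) :
    act0 C (SemidirectProduct.inr v) = trans J v := by simp [act0]

theorem act0_inl (C : P → (J → ℤ) → Prop) (x : P × (J → ℤ)) :
    act0 C (SemidirectProduct.inl (FreeGroup.of x)) = tog C x := by simp [act0]

/-- Restriction of the action to a sublattice. -/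
theorem act0_jj {d : ℕ} (C : P → (J → ℤ) → Prop) (p : P) (μ : (Fin d → ℤ) →+ (J → ℤ))
    (a : J → ℤ) (s : G0 Unit (Fin d)) (u : Fin d → ℤ) (ε : Bool) :
    act0 C (jj p μ a s) (μ u, ε) =
      ((μ (act0 (fun (_ : Unit) u => C p (μ u + a)) s (u, ε)).1),
        (act0 (fun (_ : Unit) u => C p (μ u + a)) s (u, ε)).2) := by
  set Cu : Unit → (Fin d → ℤ) → Prop := fun _ u => C p (μ u + a) with hCu
  let θ : (Fin d → ℤ) × Bool → (J → ℤ) × Bool := fun x => (μ x.1, x.2)
  suffices h : ∀ (s : G0 Unit (Fin d)) (x : (Fin d → ℤ) × Bool),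
      act0 C (jj p μ a s) (θ x) = θ (act0 Cu s x) from h s (u, ε)
  have hmul : ∀ s t : G0 Unit (Fin d), (∀ x, act0 C (jj p μ a s) (θ x) = θ (act0 Cu s x)) →
      (∀ x, act0 C (jj p μ a t) (θ x) = θ (act0 Cu t x)) →
      ∀ x, act0 C (jj p μ a (s * t)) (θ x) = θ (act0 Cu (s * t) x) := by
    intro s t hs ht x
    rw [map_mul, map_mul, map_mul, Equiv.Perm.mul_apply, Equiv.Perm.mul_apply, ht, hs]
  have hinv : ∀ s : G0 Unit (Fin d), (∀ x, act0 C (jj p μ a s) (θ x) = θ (act0 Cu s x)) →
      ∀ x, act0 C (jj p μ a s⁻¹) (θ x) = θ (act0 Cu s⁻¹ x) := by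
    intro s hs x
    have := hs (act0 Cu s⁻¹ x)
    rw [← Equiv.Perm.mul_apply (act0 Cu s), ← map_mul, mul_inv_cancel, map_one,
      Equiv.Perm.one_apply] at this
    rw [← this, ← Equiv.Perm.mul_apply, ← map_mul, ← map_mul, inv_mul_cancel, map_one, map_one,
      Equiv.Perm.one_apply]
  have hgen : ∀ (n : Fin d → ℤ) x,
      act0 C (jj p μ a (SemidirectProduct.inl (FreeGroup.of ((), n)))) (θ x)
        = θ (act0 Cu (SemidirectProduct.inl (FreeGroup.of ((), n))) x) := by
    rintro n ⟨u, ε⟩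
    rw [jj_inl, act0_inl, act0_inl]
    simp only [θ, tog_apply, hCu]
    rw [show μ u + (μ n + a) = μ (u + n) + a from by rw [map_add, add_assoc]]
  have hl : ∀ (w : FreeGroup (Unit × (Fin d → ℤ))) x,
      act0 C (jj p μ a (SemidirectProduct.inl w)) (θ x) =
        θ (act0 Cu (SemidirectProduct.inl w) x) := by
    intro w
    induction w using FreeGroup.induction_on with
    | C1 => intro x; simp
    | of y => obtain ⟨⟨⟩, n⟩ := y; exact hgen n
    | inv_of y ih => rw [map_inv]; exact hinv _ ih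
    | mul a b ha hb => rw [map_mul]; exact hmul _ _ ha hb
  have hr : ∀ (v : Multiplicative (Fin d → ℤ)) x,
      act0 C (jj p μ a (SemidirectProduct.inr v)) (θ x) =
        θ (act0 Cu (SemidirectProduct.inr v) x) := by
    rintro v ⟨u, ε⟩
    have e1 := jj_inr p μ a v.toAdd
    rw [ofAdd_toAdd] at e1
    rw [e1, act0_inr, act0_inr]
    simp only [θ, trans_apply, toAdd_ofAdd]
    rw [map_add]
  intro s
  rw [← SemidirectProduct.inl_left_mul_inr_right s]
  exact hmul _ _ (hl _) (hr _)

theorem stab_iff {d : ℕ} (C : P → (J → ℤ) → Prop) (p p' : P) (μ ν : (Fin d → ℤ) →+ (J → ℤ))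
    (a b : J → ℤ) (hμ : Function.Injective μ) (hν : Function.Injective ν)
    (h : ∀ u, C p (μ u + a) ↔ C p' (ν u + b)) (s : G0 Unit (Fin d)) :
    act0 C (jj p μ a s) (0, false) = (0, false) ↔
      act0 C (jj p' ν b s) (0, false) = (0, false) := by
  have hCu : (fun (_ : Unit) u => C p (μ u + a)) = fun (_ : Unit) u => C p' (ν u + b) := by
    funext _ u; exact propext (h u)
  have h1 := act0_jj C p μ a s 0 false
  have h2 := act0_jj C p' ν b s 0 false
  rw [map_zero] at h1 h2
  rw [hCu] at h1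
  rw [h1, h2]
  have key : ∀ c : (Fin d → ℤ) →+ (J → ℤ), Function.Injective c →
      ∀ y : (Fin d → ℤ) × Bool, (c y.1, y.2) = ((0 : J → ℤ), false) ↔ y = (0, false) := by
    rintro c hc ⟨u, ε⟩
    simp only [Prod.mk.injEq]
    constructor
    · rintro ⟨h1, h2⟩
      exact ⟨hc (by rw [h1, map_zero]), h2⟩
    · rintro ⟨rfl, rfl⟩; simp
  rw [key μ hμ, key ν hν]

end Model

theorem t : StmModel := by
  classical
  intro P ι J _ D C hC
  obtain ⟨K, κ, hκ⟩ := exists_kappa ((J → ℤ) × Bool) (Set (G0 P J))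
  have hR := fun i => exists_conj (act0 C) κ hκ (0, false)
    (jj (D.src i) (D.μ i) (D.a i)) (jj (D.tgt i) (D.ν i) (D.b i))
    (jj_injective _ _ _ (D.μ_inj i)) (jj_injective _ _ _ (D.ν_inj i))
    (stab_iff C _ _ _ _ _ _ (D.μ_inj i) (D.ν_inj i) (hC i))
  choose R hR1 hR2 using hR
  let A := big K (act0 C)
  let X : Multiplicative (J → ℤ) →* Equiv.Perm _ := A.comp SemidirectProduct.inr
  let tt : P → Equiv.Perm _ := fun p => A (SemidirectProduct.inl (FreeGroup.of (p, 0)))
  have hT : ∀ p n, T X tt p n = A (SemidirectProduct.inl (FreeGroup.of (p, n))) := by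
    intro p n
    change (A (SemidirectProduct.inr (Multiplicative.ofAdd n)))⁻¹ *
      A (SemidirectProduct.inl (FreeGroup.of (p, 0))) *
        A (SemidirectProduct.inr (Multiplicative.ofAdd n)) = _
    rw [← map_inv, ← map_mul, ← map_mul]
    congr 1
    have := SemidirectProduct.inl_aut (φ := act P J) (Multiplicative.ofAdd (-n))
      (FreeGroup.of (p, 0))
    rw [act_of] at this
    rw [toAdd_ofAdd, sub_neg_eq_add, zero_add, ofAdd_neg, map_inv, inv_inv] at this
    exact this.symm
  refine ⟨_, inferInstance, X, tt, R, ⟨?_, ?_⟩,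
    MulAction.stabilizer _ (Sum.inl (0, false) : ((J → ℤ) × Bool) ⊕ (Set (G0 P J) × K)), ?_, ?_⟩
  · intro i w
    have := hR2 i (SemidirectProduct.inr (Multiplicative.ofAdd w))
    rw [jj_inr, jj_inr] at this
    exact this
  · intro i
    rw [hT, hT]
    have := hR2 i (SemidirectProduct.inl (FreeGroup.of ((), 0)))
    rw [jj_inl, jj_inl, map_zero, map_zero, zero_add, zero_add] at this
    exact this
  · intro i
    rw [MulAction.mem_stabilizer_iff]
    exact hR1 i
  · intro p n
    rw [MulAction.mem_stabilizer_iff, hT]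
    change Sum.inl (act0 C (SemidirectProduct.inl (FreeGroup.of (p, n))) (0, false)) =
      Sum.inl (0, false) ↔ _
    rw [act0_inl, tog_apply, zero_add, Sum.inl.injEq, Prod.mk.injEq]
    by_cases h : C p n <;> simp [h]

end Pool.Agent.Y620.ISO
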